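import Mathlib

/-!
# Haxell's theorem: independent transversals

`V` is a finite graph of maximum degree at most `D`, `P i` are pairwise disjoint sets of at least
`max 1 (2 D)` vertices. Then there is an independent transversal. The proof is Haxell's (in the form
of his note on forming committees): a partial transversal with a stack of vertices, and a code (a number in
base `B`) which increases.
-/

open Classical Finset

set_option linter.unusedSectionVars false

namespace Pool.Agent.Lib.MP4d044e.AS.HAX

variable {V ι : Type} [Fintype V] [Fintype ι] (G : SimpleGraph V) (P : ι → Finset V)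
  (a : ι) (J : Finset ι)

/-- The classes of `J` whose representative is adjacent to `u`. -/
noncomputable def Dd (f : ι → V) (u : V) : Finset ι := J.filter fun i => G.Adj u (f i)

/-- The classes reached by the stack `l`. -/
noncomputable def Sc (f : ι → V) : List V → Finset ι
  | [] => {a}
  | u :: l => Sc f l ∪ Dd G J f u

/-- `f` is an independent transversal of the classes of `J`. -/
def IT (J : Finset ι) (f : ι → V) : Prop :=
  (∀ i ∈ J, f i ∈ P i) ∧ ∀ i ∈ J, ∀ j ∈ J, i ≠ j → ¬ G.Adj (f i) (f j)

/-- The stack `l` is admissible. -/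
def Conf (f : ι → V) : List V → Prop
  | [] => True
  | u :: l => Conf f l ∧ (∃ c ∈ Sc G a J f l, u ∈ P c) ∧ (∀ v ∈ l, ¬ G.Adj u v) ∧
      Disjoint (Sc G a J f l) (Dd G J f u) ∧ (Dd G J f u).Nonempty

/-- The code of the stack. -/
noncomputable def code (B L : ℕ) (f : ι → V) : List V → ℕ
  | [] => 0
  | u :: l => code B L f l + (B - (Dd G J f u).card) * B ^ (L - (l.length + 1))

variable {G P a J}

theorem a_mem (f : ι → V) (l : List V) : a ∈ Sc G a J f l := by
  induction l with
  | nil => simp [Sc]
  | cons u l ih => simp only [Sc, mem_union]; exact Or.inl ih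

theorem sc_sub (f : ι → V) (l : List V) : Sc G a J f l ⊆ insert a J := by
  induction l with
  | nil => intro x hx; simp [Sc] at hx; simp [hx]
  | cons u l ih =>
    intro x hx
    simp only [Sc, mem_union] at hx
    rcases hx with hx | hx
    · exact ih hx
    · exact mem_insert_of_mem (mem_filter.1 hx).1

theorem sc_card {f : ι → V} {l : List V} (h : Conf G P a J f l) :
    l.length + 1 ≤ (Sc G a J f l).card := by
  induction l with
  | nil => simp [Sc]
  | cons u l ih =>
    have h1 := ih h.1
    simp only [Sc]
    rw [card_union_of_disjoint h.2.2.2.1]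
    have h2 := h.2.2.2.2.card_pos
    simp only [List.length_cons]
    omega

theorem len_le (ha : a ∉ J) {f : ι → V} {l : List V} (h : Conf G P a J f l) : l.length ≤ J.card := by
  have h1 := sc_card h
  have h2 := card_le_card (sc_sub (G := G) (a := a) (J := J) f l)
  rw [card_insert_of_notMem ha] at h2
  omega

theorem congr_aux {f f' : ι → V} {l : List V} (h : ∀ v ∈ l, Dd G J f' v = Dd G J f v) (B L : ℕ) :
    Sc G a J f' l = Sc G a J f l ∧ code G J B L f' l = code G J B L f l ∧
      (Conf G P a J f l → Conf G P a J f' l) := by
  induction l with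
  | nil => exact ⟨rfl, rfl, fun _ => trivial⟩
  | cons u l ih =>
    obtain ⟨h1, h2, h3⟩ := ih fun v hv => h v (List.mem_cons_of_mem _ hv)
    have h4 := h u List.mem_cons_self
    refine ⟨?_, ?_, ?_⟩
    · simp only [Sc, h1, h4]
    · simp only [code, h2, h4]
    · rintro ⟨k1, k2, k3, k4, k5⟩
      refine ⟨h3 k1, ?_, k3, ?_, ?_⟩
      · rw [h1]; exact k2
      · rw [h1, h4]; exact k4
      · rw [h4]; exact k5

theorem conf_suffix {f : ι → V} (l2 l1 : List V) (h : Conf G P a J f (l2 ++ l1)) :
    Conf G P a J f l1 := by
  induction l2 with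
  | nil => exact h
  | cons u l2 ih => exact ih h.1

theorem tail_code {f : ι → V} (B L : ℕ) (l2 l1 : List V) (h : Conf G P a J f (l2 ++ l1))
    (hL : (l2 ++ l1).length ≤ L) (hB : ∀ u, (Dd G J f u).card < B) :
    code G J B L f (l2 ++ l1) + B ^ (L - (l2 ++ l1).length) ≤
      code G J B L f l1 + B ^ (L - l1.length) := by
  induction l2 with
  | nil => exact le_rfl
  | cons u l2 ih =>
    simp only [List.cons_append] at h hL ⊢
    have h1 := ih h.1 (by simp only [List.length_cons] at hL; omega)
    refine le_trans ?_ h1
    simp only [code, List.length_cons]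
    set k := (l2 ++ l1).length with hk
    have hk1 : k + 1 ≤ L := by simpa [hk] using hL
    have h2 : B ^ (L - k) = B * B ^ (L - (k + 1)) := by
      rw [← pow_succ']
      congr 1
      omega
    rw [h2]
    have h3 := h.2.2.2.2.card_pos
    have h4 := hB u
    have h5 : (B - (Dd G J f u).card) + 1 ≤ B := by omega
    have h6 := Nat.mul_le_mul_right (B ^ (L - (k + 1))) h5
    rw [add_mul, one_mul] at h6
    omega

theorem mem_sc {f : ι → V} {l : List V} {c : ι} (hc : c ∈ Sc G a J f l) (hca : c ≠ a) :
    ∃ l2 u l1, l = l2 ++ u :: l1 ∧ c ∈ Dd G J f u := by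
  induction l with
  | nil => simp [Sc] at hc; exact absurd hc hca
  | cons v l ih =>
    simp only [Sc, mem_union] at hc
    rcases hc with hc | hc
    · obtain ⟨l2, u, l1, h1, h2⟩ := ih hc
      exact ⟨v :: l2, u, l1, by rw [h1]; rfl, h2⟩
    · exact ⟨[], v, l, rfl, hc⟩

theorem sc_of_mem {f : ι → V} {l : List V} {v : V} (hv : v ∈ l) : Dd G J f v ⊆ Sc G a J f l := by
  induction l with
  | nil => simp at hv
  | cons u l ih =>
    intro x hx
    simp only [Sc, mem_union]
    rcases List.mem_cons.1 hv with h | h
    · subst h; exact Or.inr hx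
    · exact Or.inl (ih h hx)

theorem dd_lt {f : ι → V} (u : V) : (Dd G J f u).card < J.card + 1 :=
  Nat.lt_succ_of_le (card_le_card (filter_subset _ _))

theorem swap (ha : a ∉ J) : ∀ (n : ℕ) (l : List V), l.length ≤ n → ∀ (f : ι → V) (w : V),
    IT G P J f → Conf G P a J f l → (∃ c ∈ Sc G a J f l, w ∈ P c) → (∀ u ∈ l, ¬ G.Adj w u) →
    Dd G J f w = ∅ →
    (∃ f' : ι → V, IT G P (insert a J) f') ∨
      ∃ (f' : ι → V) (l' : List V), IT G P J f' ∧ Conf G P a J f' l' ∧
        code G J (J.card + 1) J.card f l + (J.card + 1) ^ (J.card - l.length) ≤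
          code G J (J.card + 1) J.card f' l' := by
  intro n
  induction n with
  | zero =>
    intro l hl f w hf hC hw _ hD
    have hl0 : l = [] := List.length_eq_zero_iff.1 (Nat.le_zero.1 hl)
    subst hl0
    obtain ⟨c, hc, hwc⟩ := hw
    simp only [Sc, mem_singleton] at hc
    subst hc
    left
    refine ⟨Function.update f c w, ?_, ?_⟩
    · intro i hi
      rcases mem_insert.1 hi with h | h
      · subst h; simpa using hwc
      · have hne : i ≠ c := fun h' => ha (h' ▸ h)
        rw [Function.update_of_ne hne]; exact hf.1 i h
    · have hnw : ∀ i ∈ J, ¬ G.Adj w (f i) := by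
        intro i hi hadj
        have : i ∈ Dd G J f w := mem_filter.2 ⟨hi, hadj⟩
        rw [hD] at this
        simp at this
      intro i hi j hj hij
      rcases mem_insert.1 hi with h | h
      · subst h
        rcases mem_insert.1 hj with h' | h'
        · exact absurd h'.symm hij
        · rw [Function.update_self, Function.update_of_ne (fun e => hij e.symm)]
          exact hnw j h'
      · have hne : i ≠ c := fun h' => ha (h' ▸ h)
        rw [Function.update_of_ne hne]
        rcases mem_insert.1 hj with h' | h'
        · subst h'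
          rw [Function.update_self]
          exact fun e => hnw i h e.symm
        · have hne' : j ≠ c := fun h'' => ha (h'' ▸ h')
          rw [Function.update_of_ne hne']
          exact hf.2 i h j h' hij
  | succ n ih =>
    intro l hl f w hf hC hw hwl hD
    have hnw : ∀ i ∈ J, ¬ G.Adj w (f i) := by
      intro i hi hadj
      have : i ∈ Dd G J f w := mem_filter.2 ⟨hi, hadj⟩
      rw [hD] at this
      simp at this
    obtain ⟨c, hc, hwc⟩ := hw
    by_cases hca : c = a
    · subst hca
      left
      refine ⟨Function.update f c w, ?_, ?_⟩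
      · intro i hi
        rcases mem_insert.1 hi with h | h
        · subst h; simpa using hwc
        · have hne : i ≠ c := fun h' => ha (h' ▸ h)
          rw [Function.update_of_ne hne]; exact hf.1 i h
      · intro i hi j hj hij
        rcases mem_insert.1 hi with h | h
        · subst h
          rcases mem_insert.1 hj with h' | h'
          · exact absurd h'.symm hij
          · rw [Function.update_self, Function.update_of_ne (fun e => hij e.symm)]
            exact hnw j h'
        · have hne : i ≠ c := fun h' => ha (h' ▸ h)
          rw [Function.update_of_ne hne]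
          rcases mem_insert.1 hj with h' | h'
          · subst h'
            rw [Function.update_self]
            exact fun e => hnw i h e.symm
          · have hne' : j ≠ c := fun h'' => ha (h'' ▸ h')
            rw [Function.update_of_ne hne']
            exact hf.2 i h j h' hij
    · obtain ⟨l2, u, l1, hl12, hcu⟩ := mem_sc hc hca
      have hcJ : c ∈ J := (mem_filter.1 hcu).1
      have hCu : Conf G P a J f (u :: l1) := conf_suffix l2 _ (hl12 ▸ hC)
      have hul : u ∈ l := by rw [hl12]; simp
      have hl1l : ∀ v ∈ l1, v ∈ l := fun v hv => by rw [hl12]; simp [hv]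
      set f' := Function.update f c w with hf'
      have hIT : IT G P J f' := by
        refine ⟨?_, ?_⟩
        · intro i hi
          by_cases h : i = c
          · subst h; rw [hf', Function.update_self]; exact hwc
          · rw [hf', Function.update_of_ne h]; exact hf.1 i hi
        · intro i hi j hj hij
          by_cases h : i = c
          · subst h
            rw [hf', Function.update_self, Function.update_of_ne (fun e => hij e.symm)]
            exact hnw j hj
          · by_cases h' : j = c
            · subst h'
              rw [hf', Function.update_self, Function.update_of_ne h]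
              exact fun e => hnw i hi e.symm
            · rw [hf', Function.update_of_ne h, Function.update_of_ne h']
              exact hf.2 i hi j hj hij
      have hDv : ∀ v ∈ l1, Dd G J f' v = Dd G J f v := by
        intro v hv
        ext i
        simp only [Dd, mem_filter]
        by_cases h : i = c
        · subst h
          rw [hf', Function.update_self]
          constructor
          · rintro ⟨_, h2⟩
            exact absurd h2.symm (hwl v (hl1l v hv))
          · rintro ⟨h1, h2⟩
            exfalso
            have h3 : i ∈ Sc G a J f l1 := sc_of_mem hv (mem_filter.2 ⟨h1, h2⟩)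
            exact (Finset.disjoint_left.1 hCu.2.2.2.1 h3) hcu
        · rw [hf', Function.update_of_ne h]
      have hDu : Dd G J f' u = (Dd G J f u).erase c := by
        ext i
        simp only [Dd, mem_filter, mem_erase]
        by_cases h : i = c
        · subst h
          rw [hf', Function.update_self]
          constructor
          · rintro ⟨_, h2⟩
            exact absurd h2.symm (hwl u hul)
          · rintro ⟨h1, _⟩
            exact absurd rfl h1
        · rw [hf', Function.update_of_ne h]
          exact ⟨fun e => ⟨h, e⟩, fun e => e.2⟩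
      obtain ⟨e1, e2, e3⟩ := congr_aux (P := P) (a := a) hDv (J.card + 1) J.card
      have hlen : l.length ≤ J.card := len_le ha hC
      have hlenu : l1.length + 1 ≤ l.length := by rw [hl12]; simp
      by_cases hne : (Dd G J f' u).Nonempty
      · right
        refine ⟨f', u :: l1, hIT, ⟨e3 hCu.1, ?_, hCu.2.2.1, ?_, hne⟩, ?_⟩
        · rw [e1]; exact hCu.2.1
        · rw [e1, hDu]
          exact hCu.2.2.2.1.mono_right (erase_subset _ _)
        · have h1 := tail_code (G := G) (P := P) (a := a) (J.card + 1) J.card l2 (u :: l1)
            (hl12 ▸ hC) (by rw [← hl12]; exact hlen) (fun v => dd_lt v)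
          rw [← hl12] at h1
          refine h1.trans ?_
          simp only [code, List.length_cons]
          rw [e2, hDu, card_erase_of_mem hcu]
          have h2 := hCu.2.2.2.2.card_pos
          have h3 := dd_lt (G := G) (J := J) (f := f) u
          have h4 : J.card + 1 - ((Dd G J f u).card - 1) = (J.card + 1 - (Dd G J f u).card) + 1 := by
            omega
          rw [h4, add_mul, one_mul]
          omega
      · rw [not_nonempty_iff_eq_empty] at hne
        have h0 := ih l1 (by omega) f' u hIT (e3 hCu.1) (by rw [e1]; exact hCu.2.1) hCu.2.2.1 hne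
        rcases h0 with h0 | ⟨f'', l'', k1, k2, k3⟩
        · exact Or.inl h0
        · right
          refine ⟨f'', l'', k1, k2, ?_⟩
          refine le_trans ?_ k3
          have hl12' : l = (l2 ++ [u]) ++ l1 := by rw [hl12]; simp
          have h1 := tail_code (G := G) (P := P) (a := a) (J.card + 1) J.card (l2 ++ [u]) l1
            (hl12' ▸ hC) (by rw [← hl12']; exact hlen) (fun v => dd_lt v)
          rw [← hl12'] at h1
          rw [e2]
          exact h1

theorem dom (ha : a ∉ J) {D : ℕ} (hD : 1 ≤ D) (hdeg : ∀ v, (univ.filter fun u => G.Adj v u).card ≤ D)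
    (hdis : ∀ i j, i ≠ j → Disjoint (P i) (P j)) (hP : ∀ i, 2 * D ≤ (P i).card)
    {f : ι → V} {l : List V} (hC : Conf G P a J f l) :
    ∃ w, (∃ c ∈ Sc G a J f l, w ∈ P c) ∧ (∀ u ∈ l, ¬ G.Adj w u) ∧
      ∀ i ∈ Sc G a J f l, i ∈ J → ¬ G.Adj w (f i) := by
  by_contra hne
  push Not at hne
  set S := Sc G a J f l with hS
  have h1 : S.biUnion P ⊆ (l.toFinset.biUnion fun u => univ.filter fun x => G.Adj u x) ∪
      ((S.erase a).biUnion fun i => univ.filter fun x => G.Adj (f i) x) := by
    intro w hw
    obtain ⟨c, hc, hwc⟩ := mem_biUnion.1 hw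
    by_cases hl : ∀ u ∈ l, ¬ G.Adj w u
    · obtain ⟨i, hi, hiJ, hadj⟩ := hne w ⟨c, hc, hwc⟩ hl
      refine mem_union_right _ (mem_biUnion.2 ⟨i, ?_, ?_⟩)
      · exact mem_erase.2 ⟨fun h => ha (h ▸ hiJ), hi⟩
      · exact mem_filter.2 ⟨mem_univ _, hadj.symm⟩
    · push Not at hl
      obtain ⟨u, hu, hadj⟩ := hl
      exact mem_union_left _ (mem_biUnion.2 ⟨u, List.mem_toFinset.2 hu,
        mem_filter.2 ⟨mem_univ _, hadj.symm⟩⟩)
  have h2 : (S.biUnion P).card = ∑ i ∈ S, (P i).card :=
    card_biUnion fun i _ j _ hij => hdis i j hij
  have h3 : S.card * (2 * D) ≤ (S.biUnion P).card := by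
    rw [h2, ← smul_eq_mul]
    exact card_nsmul_le_sum _ _ _ fun i _ => hP i
  have h4 : (l.toFinset.biUnion fun u => univ.filter fun x => G.Adj u x).card ≤ l.length * D := by
    refine (card_biUnion_le_card_mul _ _ D fun u _ => hdeg u).trans ?_
    exact Nat.mul_le_mul_right _ l.toFinset_card_le
  have h5 : ((S.erase a).biUnion fun i => univ.filter fun x => G.Adj (f i) x).card ≤
      (S.card - 1) * D := by
    refine (card_biUnion_le_card_mul _ _ D fun i _ => hdeg (f i)).trans ?_
    rw [card_erase_of_mem (a_mem f l)]
  have h6 := (card_le_card h1).trans (card_union_le _ _)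
  have h7 := sc_card hC
  rw [← hS] at h7
  have h8 : l.length * D ≤ (S.card - 1) * D := Nat.mul_le_mul_right _ (by omega)
  have h9 : (S.card - 1) * D + D = S.card * D := by
    rw [← Nat.succ_mul]
    congr 1
    omega
  have h10 : S.card * (2 * D) = S.card * D + S.card * D := by ring
  omega

theorem main_step (ha : a ∉ J) {D : ℕ} (hD : 1 ≤ D)
    (hdeg : ∀ v, (univ.filter fun u => G.Adj v u).card ≤ D)
    (hdis : ∀ i j, i ≠ j → Disjoint (P i) (P j)) (hP : ∀ i, 2 * D ≤ (P i).card) :
    ∀ (n : ℕ) (f : ι → V) (l : List V), IT G P J f → Conf G P a J f l →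
      (J.card + 1) ^ J.card ≤ code G J (J.card + 1) J.card f l + n →
      ∃ f' : ι → V, IT G P (insert a J) f' := by
  intro n
  induction n with
  | zero =>
    intro f l _ hC hn
    exfalso
    have hlen := len_le ha hC
    have h1 := tail_code (G := G) (P := P) (a := a) (J.card + 1) J.card l []
      (by simpa using hC) (by simpa using hlen) (fun v => dd_lt v)
    simp only [List.append_nil, code, List.length_nil, Nat.sub_zero, zero_add] at h1
    have h2 : 0 < (J.card + 1) ^ (J.card - l.length) := Nat.pow_pos (by omega)
    omega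
  | succ n ih =>
    intro f l hf hC hn
    obtain ⟨w, hw1, hw2, hw3⟩ := dom ha hD hdeg hdis hP hC
    by_cases hDw : Dd G J f w = ∅
    · rcases swap ha l.length l le_rfl f w hf hC hw1 hw2 hDw with h | ⟨f', l', k1, k2, k3⟩
      · exact h
      · refine ih f' l' k1 k2 ?_
        have h2 : 0 < (J.card + 1) ^ (J.card - l.length) := Nat.pow_pos (by omega)
        omega
    · have hne : (Dd G J f w).Nonempty := nonempty_iff_ne_empty.2 hDw
      have hC' : Conf G P a J f (w :: l) := by
        refine ⟨hC, hw1, hw2, ?_, hne⟩
        rw [Finset.disjoint_left]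
        intro i hi hi'
        exact hw3 i hi (mem_filter.1 hi').1 (mem_filter.1 hi').2
      refine ih f (w :: l) hf hC' ?_
      simp only [code]
      have h3 := dd_lt (G := G) (J := J) (f := f) w
      have h4 : 1 ≤ (J.card + 1 - (Dd G J f w).card) * (J.card + 1) ^ (J.card - (l.length + 1)) :=
        Nat.mul_pos (by omega) (Nat.pow_pos (by omega))
      omega

/-- **Haxell's theorem.** -/
theorem haxell (G : SimpleGraph V) (P : ι → Finset V) (D : ℕ)
    (hdeg : ∀ v, (univ.filter fun u => G.Adj v u).card ≤ D)
    (hdis : ∀ i j, i ≠ j → Disjoint (P i) (P j)) (hne : ∀ i, (P i).Nonempty)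
    (hP : ∀ i, 2 * D ≤ (P i).card) :
    ∃ f : ι → V, (∀ i, f i ∈ P i) ∧ ∀ i j, i ≠ j → ¬ G.Adj (f i) (f j) := by
  choose f0 hf0 using hne
  rcases Nat.eq_zero_or_pos D with hD | hD
  · refine ⟨f0, hf0, fun i j _ hadj => ?_⟩
    have h1 := hdeg (f0 i)
    rw [hD, Nat.le_zero, card_eq_zero] at h1
    have h2 : f0 j ∈ univ.filter fun u => G.Adj (f0 i) u := mem_filter.2 ⟨mem_univ _, hadj⟩
    rw [h1] at h2
    simp at h2
  · have h : ∀ J : Finset ι, ∃ f : ι → V, IT G P J f := by
      intro J
      induction J using Finset.induction_on with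
      | empty => exact ⟨f0, fun i hi => absurd hi (notMem_empty i), fun i hi => absurd hi (notMem_empty i)⟩
      | insert a J ha ih =>
        obtain ⟨f, hf⟩ := ih
        exact main_step ha hD hdeg hdis hP _ f [] hf trivial (Nat.le_add_left _ _)
    obtain ⟨f, hf⟩ := h univ
    exact ⟨f, fun i => hf.1 i (mem_univ i), fun i j hij => hf.2 i (mem_univ i) j (mem_univ j) hij⟩

end Pool.Agent.Lib.MP4d044e.AS.HAX
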