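import Pool.Agent.Lib.MP_4d044e_co.AS.HAX

/-!
# Independent transversals of sets in which every vertex occurs at most twice
-/

open Classical Finset

set_option linter.unusedSectionVars false

namespace Pool.Agent.Lib.MP4d044e.AS.TRV

variable {V ι : Type} [Fintype V] [Fintype ι]

/-- Every vertex lies in at most two of the sets `Q i`, and `2 m ≤ |Q i|`. Then there are pairwise
disjoint subsets `P i ⊆ Q i` of `m` elements. -/
theorem split (Q : ι → Finset V) (m : ℕ) (h2 : ∀ v, (univ.filter fun i => v ∈ Q i).card ≤ 2)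
    (hm : ∀ i, 2 * m ≤ (Q i).card) :
    ∃ P : ι → Finset V, (∀ i, P i ⊆ Q i) ∧ (∀ i, (P i).card = m) ∧
      ∀ i j, i ≠ j → Disjoint (P i) (P j) := by
  have hall : ∀ s : Finset (ι × Fin m), s.card ≤ (s.biUnion fun x => Q x.1).card := by
    intro s
    set I := s.image Prod.fst with hI
    have h3 : s.card ≤ I.card * m := by
      have h4 : s ⊆ I ×ˢ (univ : Finset (Fin m)) := by
        intro x hx
        rw [mem_product]
        exact ⟨mem_image_of_mem _ hx, mem_univ _⟩
      have h5 := card_le_card h4
      rw [card_product, card_univ, Fintype.card_fin] at h5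
      exact h5
    have h6 : s.biUnion (fun x => Q x.1) = I.biUnion Q := by
      ext v
      simp only [mem_biUnion, hI, mem_image]
      constructor
      · rintro ⟨x, hx, hv⟩
        exact ⟨x.1, ⟨x, hx, rfl⟩, hv⟩
      · rintro ⟨i, ⟨x, hx, rfl⟩, hv⟩
        exact ⟨x, hx, hv⟩
    have h7 : ∑ i ∈ I, (Q i).card ≤ 2 * (I.biUnion Q).card := by
      have h8 : ∑ i ∈ I, (Q i).card =
          ∑ v ∈ I.biUnion Q, (I.filter fun i => v ∈ Q i).card := by
        have h := sum_card_bipartiteAbove_eq_sum_card_bipartiteBelow (s := I) (t := I.biUnion Q)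
          (fun i v => v ∈ Q i)
        refine Eq.trans (sum_congr rfl fun i hi => ?_) h
        congr 1
        ext v
        simp only [bipartiteAbove, mem_filter, mem_biUnion]
        exact ⟨fun h => ⟨⟨i, hi, h⟩, h⟩, fun h => h.2⟩
      rw [h8, mul_comm, ← smul_eq_mul]
      refine sum_le_card_nsmul _ _ _ fun v _ => ?_
      exact (card_le_card (filter_subset_filter _ (subset_univ _))).trans (h2 v)
    have h9 : I.card * (2 * m) ≤ ∑ i ∈ I, (Q i).card := by
      rw [← smul_eq_mul]
      exact card_nsmul_le_sum _ _ _ fun i _ => hm i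
    rw [h6]
    have h10 : I.card * (2 * m) = 2 * (I.card * m) := by ring
    omega
  obtain ⟨f, hf, hfm⟩ := (Finset.all_card_le_biUnion_card_iff_exists_injective
    (fun x : ι × Fin m => Q x.1)).1 hall
  refine ⟨fun i => univ.image fun j : Fin m => f (i, j), ?_, ?_, ?_⟩
  · intro i v hv
    obtain ⟨j, -, rfl⟩ := mem_image.1 hv
    exact hfm (i, j)
  · intro i
    rw [card_image_of_injective, card_univ, Fintype.card_fin]
    intro j j' hjj
    have := hf hjj
    simpa using this
  · intro i j hij
    rw [Finset.disjoint_left]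
    intro v hv hv'
    obtain ⟨a, -, rfl⟩ := mem_image.1 hv
    obtain ⟨b, -, hb⟩ := mem_image.1 hv'
    have := hf hb
    simp only [Prod.mk.injEq] at this
    exact hij this.1.symm

/-- **Transversal of clusters.** Every vertex lies in at most two of the sets `Q i` (of at least
`4 D + 2` vertices), the conflict graph `X` has maximum degree at most `D`. Then there are distinct
representatives `r i ∈ Q i`, pairwise not adjacent in `X`. -/
theorem transversal (X : SimpleGraph V) (Q : ι → Finset V) (D : ℕ)
    (hdeg : ∀ v, (univ.filter fun u => X.Adj v u).card ≤ D)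
    (h2 : ∀ v, (univ.filter fun i => v ∈ Q i).card ≤ 2) (hQ : ∀ i, 4 * D + 2 ≤ (Q i).card) :
    ∃ r : ι → V, Function.Injective r ∧ (∀ i, r i ∈ Q i) ∧
      ∀ i j, i ≠ j → ¬ X.Adj (r i) (r j) := by
  obtain ⟨P, hP1, hP2, hP3⟩ := split Q (2 * D + 1) h2 fun i => by
    have := hQ i
    omega
  obtain ⟨f, hf1, hf2⟩ := HAX.haxell X P D hdeg hP3
    (fun i => by rw [← card_pos, hP2 i]; omega) (fun i => by rw [hP2 i]; omega)
  refine ⟨f, ?_, fun i => hP1 i (hf1 i), hf2⟩
  intro i j hij
  by_contra hne
  have h := hP3 i j hne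
  rw [Finset.disjoint_left] at h
  exact h (hf1 i) (hij ▸ hf1 j)

end Pool.Agent.Lib.MP4d044e.AS.TRV
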